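import Mathlib

/-!
A one-dimensional lemma: a function which at every time agrees with one of two absolutely
continuous functions is controlled by the speed of the function it agrees with.
-/

set_option autoImplicit false

open MeasureTheory Set Filter Topology
open scoped ENNReal NNReal Interval

namespace Pool.Agent.R252.Pol

open AbsolutelyContinuousOnInterval in
lemma ac_of_dist_le {f g : ℝ → ℝ} {a b : ℝ} (hg : AbsolutelyContinuousOnInterval g a b)
    (h : ∀ s ∈ uIcc a b, ∀ t ∈ uIcc a b, dist (f s) (f t) ≤ dist (g s) (g t)) :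
    AbsolutelyContinuousOnInterval f a b := by
  refine squeeze_zero' ?_ ?_ hg
  · exact Eventually.of_forall fun E => Finset.sum_nonneg fun _ _ => dist_nonneg
  · have : ∀ᶠ E in totalLengthFilter ⊓ 𝓟 (disjWithin a b), E ∈ disjWithin a b :=
      eventually_inf_principal.mpr (by simp)
    filter_upwards [this] with E hE
    apply Finset.sum_le_sum
    intro i hi
    exact h _ (hE.1 i hi).1 _ (hE.1 i hi).2

variable {L : ℝ} {ρ u : ℝ → ℝ}

lemma dist_bound (h1 : IntervalIntegrable ρ volume 0 L) (hL : 0 ≤ L)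
    (hu : ∀ s t, 0 ≤ s → s ≤ t → t ≤ L → |u t - u s| ≤ ∫ x in s..t, ρ x)
    {s t : ℝ} (hs : s ∈ Icc 0 L) (ht : t ∈ Icc 0 L) :
    dist (u s) (u t) ≤ dist (∫ x in (0 : ℝ)..s, ρ x) (∫ x in (0 : ℝ)..t, ρ x) := by
  have key : ∀ s t, 0 ≤ s → s ≤ t → t ≤ L →
      dist (u s) (u t) ≤ dist (∫ x in (0 : ℝ)..s, ρ x) (∫ x in (0 : ℝ)..t, ρ x) := by
    intro s t hs hst ht
    have i1 : IntervalIntegrable ρ volume 0 s :=
      h1.mono_set (by rw [uIcc_of_le hs, uIcc_of_le hL]; exact Icc_subset_Icc le_rfl (hst.trans ht))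
    have i2 : IntervalIntegrable ρ volume 0 t :=
      h1.mono_set (by rw [uIcc_of_le (hs.trans hst), uIcc_of_le hL]
                      exact Icc_subset_Icc le_rfl ht)
    rw [dist_comm, dist_comm (∫ x in (0 : ℝ)..s, ρ x), Real.dist_eq, Real.dist_eq,
      intervalIntegral.integral_interval_sub_left i2 i1]
    refine (hu s t hs hst ht).trans (le_abs_self _)
  rcases le_total s t with h | h
  · exact key s t hs.1 h ht.2
  · rw [dist_comm, dist_comm (∫ x in (0 : ℝ)..s, ρ x)]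
    exact key t s ht.1 h hs.2

lemma ac_of_bound (h1 : IntervalIntegrable ρ volume 0 L) (hL : 0 ≤ L)
    (hu : ∀ s t, 0 ≤ s → s ≤ t → t ≤ L → |u t - u s| ≤ ∫ x in s..t, ρ x) :
    AbsolutelyContinuousOnInterval u 0 L := by
  apply ac_of_dist_le (h1.absolutelyContinuousOnInterval_intervalIntegral (c := 0) (by simp))
  intro s hs t ht
  rw [uIcc_of_le hL] at hs ht
  exact dist_bound h1 hL hu hs ht

/-- Almost everywhere bound for the derivative. -/
lemma deriv_bound (h1 : IntervalIntegrable ρ volume 0 L) (n1 : ∀ t, 0 ≤ ρ t)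
    (hL : 0 ≤ L)
    (hu : ∀ s t, 0 ≤ s → s ≤ t → t ≤ L → |u t - u s| ≤ ∫ x in s..t, ρ x) :
    ∀ᵐ t : ℝ, t ∈ Ioo 0 L → DifferentiableAt ℝ u t ∧ |deriv u t| ≤ ρ t := by
  filter_upwards [(ac_of_bound h1 hL hu).ae_differentiableAt, h1.ae_hasDerivAt_integral]
    with t ht1 ht2 ht
  rw [uIcc_of_le hL] at ht1 ht2
  have htI : t ∈ Icc 0 L := Ioo_subset_Icc_self ht
  have hd := ht1 htI
  have hG := ht2 htI 0 ⟨le_rfl, hL⟩
  refine ⟨hd, ?_⟩
  have hs1 := (hasDerivAt_iff_tendsto_slope.1 hd.hasDerivAt).abs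
  have hs2 := (hasDerivAt_iff_tendsto_slope.1 hG).abs
  rw [abs_of_nonneg (n1 t)] at hs2
  refine le_of_tendsto_of_tendsto hs1 hs2 ?_
  have hnear : ∀ᶠ s in 𝓝[≠] t, s ∈ Icc 0 L :=
    mem_nhdsWithin_of_mem_nhds (Icc_mem_nhds ht.1 ht.2)
  filter_upwards [hnear] with s hs
  rw [slope_def_field, slope_def_field, abs_div, abs_div]
  have := dist_bound h1 hL hu hs htI
  rw [Real.dist_eq, Real.dist_eq] at this
  exact div_le_div_of_nonneg_right this (abs_nonneg _)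

/-- **Switching lemma.** -/
theorem switch_bound {L : ℝ} (hL : 0 ≤ L) {ρ1 ρ2 u1 u2 V : ℝ → ℝ}
    (h1 : IntervalIntegrable ρ1 volume 0 L) (h2 : IntervalIntegrable ρ2 volume 0 L)
    (n1 : ∀ t, 0 ≤ ρ1 t) (n2 : ∀ t, 0 ≤ ρ2 t)
    (hu1 : ∀ s t, 0 ≤ s → s ≤ t → t ≤ L → |u1 t - u1 s| ≤ ∫ x in s..t, ρ1 x)
    (hu2 : ∀ s t, 0 ≤ s → s ≤ t → t ≤ L → |u2 t - u2 s| ≤ ∫ x in s..t, ρ2 x)
    (hV : ∀ s t, 0 ≤ s → s ≤ t → t ≤ L → |V t - V s| ≤ ∫ x in s..t, (ρ1 x + ρ2 x))
    (hsel : ∀ t ∈ Icc 0 L, V t = u1 t ∨ V t = u2 t) :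
    ENNReal.ofReal (V L - V 0) ≤ ∫⁻ t in Icc 0 L,
      (if V t = u1 t then ENNReal.ofReal (ρ1 t) else ENNReal.ofReal (ρ2 t)) := by
  classical
  have hac := ac_of_bound (h1.add h2) hL hV
  -- the derivative bound
  have hcount : {t ∈ {t | V t = u1 t} | 𝓝[{t | V t = u1 t} ∩ Ioi t] t = ⊥}.Countable :=
    countable_setOfPred_isolated_right_within
  have hae0 : ∀ᵐ t : ℝ, t ∉ {t ∈ {t | V t = u1 t} | 𝓝[{t | V t = u1 t} ∩ Ioi t] t = ⊥} := by
    rw [← measure_eq_zero_iff_ae_notMem]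
    exact hcount.measure_zero _
  have hbound : ∀ᵐ t : ℝ, t ∈ Ioo 0 L → ‖deriv V t‖ₑ
      ≤ (if V t = u1 t then ENNReal.ofReal (ρ1 t) else ENNReal.ofReal (ρ2 t)) := by
    filter_upwards [deriv_bound h1 n1 hL hu1, deriv_bound h2 n2 hL hu2,
      deriv_bound (h1.add h2) (fun t => add_nonneg (n1 t) (n2 t)) hL hV, hae0]
      with t hd1 hd2 hdV hiso ht
    obtain ⟨d1, b1⟩ := hd1 ht
    obtain ⟨d2, b2⟩ := hd2 ht
    obtain ⟨dV, -⟩ := hdV ht
    have hnear : ∀ᶠ s in 𝓝 t, s ∈ Icc 0 L := Icc_mem_nhds ht.1 ht.2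
    by_cases hVt : V t = u1 t
    · rw [if_pos hVt]
      have hne : 𝓝[{t | V t = u1 t} ∩ Ioi t] t ≠ ⊥ := by
        intro h
        exact hiso ⟨hVt, h⟩
      set S := {t | V t = u1 t} ∩ Ioi t with hS
      have hNB : (𝓝[S] t).NeBot := ⟨hne⟩
      have hsub : 𝓝[S] t ≤ 𝓝[≠] t := by
        apply nhdsWithin_mono
        intro s hs
        exact ne_of_gt hs.2
      have l1 := (hasDerivAt_iff_tendsto_slope.1 dV.hasDerivAt).mono_left hsub
      have l2 := (hasDerivAt_iff_tendsto_slope.1 d1.hasDerivAt).mono_left hsub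
      have heq : slope V t =ᶠ[𝓝[S] t] slope u1 t := by
        filter_upwards [self_mem_nhdsWithin] with s hs
        rw [slope_def_field, slope_def_field, hs.1, hVt]
      have : deriv V t = deriv u1 t := tendsto_nhds_unique (l1.congr' heq) l2
      rw [this, Real.enorm_eq_ofReal_abs]
      exact ENNReal.ofReal_le_ofReal b1
    · rw [if_neg hVt]
      have hc1 := d1.continuousAt
      have hcV := dV.continuousAt
      have hne : ∀ᶠ s in 𝓝 t, V s ≠ u1 s := (hcV.sub hc1).eventually_ne (sub_ne_zero.2 hVt) |>.mono fun s hs => sub_ne_zero.1 hs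
      have heq : V =ᶠ[𝓝 t] u2 := by
        filter_upwards [hne, hnear] with s hs hs2
        exact (hsel s hs2).resolve_left hs
      rw [heq.deriv_eq, Real.enorm_eq_ofReal_abs]
      exact ENNReal.ofReal_le_ofReal b2
  have hFTC := hac.integral_deriv_eq_sub
  calc ENNReal.ofReal (V L - V 0) ≤ ‖V L - V 0‖ₑ := by
        rw [Real.enorm_eq_ofReal_abs]
        exact ENNReal.ofReal_le_ofReal (le_abs_self _)
    _ = ‖∫ t in Ioc 0 L, deriv V t‖ₑ := by
        rw [← hFTC, intervalIntegral.integral_of_le hL]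
    _ ≤ ∫⁻ t in Ioc 0 L, ‖deriv V t‖ₑ := enorm_integral_le_lintegral_enorm _
    _ = ∫⁻ t in Ioo 0 L, ‖deriv V t‖ₑ := by
        rw [restrict_Ioo_eq_restrict_Ioc]
    _ ≤ ∫⁻ t in Ioo 0 L,
        (if V t = u1 t then ENNReal.ofReal (ρ1 t) else ENNReal.ofReal (ρ2 t)) := by
        apply lintegral_mono_ae
        rw [ae_restrict_iff' measurableSet_Ioo]
        exact hbound
    _ ≤ _ := lintegral_mono_set Ioo_subset_Icc_self

end Pool.Agent.R252.Pol
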