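import Mathlib

/-!
The potential `pot ρ A x`: the infimum of the `ρ`-lengths of the Lipschitz curves from `A` to `x`.
-/

set_option autoImplicit false

open MeasureTheory Set Filter Topology
open scoped ENNReal NNReal Interval

namespace Pool.Agent.R252.Pol

variable {X : Type*} [MetricSpace X]

/-- The infimum of `∫_0^L ρ(c(s)) ds` over the `1`-Lipschitz `c` with `c(0) ∈ A`, `c(L) = x`. -/
noncomputable def pot (ρ : X → ℝ≥0∞) (A : Set X) (x : X) : ℝ≥0∞ :=
  ⨅ (L : ℝ) (_ : 0 ≤ L) (c : ℝ → X) (_ : LipschitzWith 1 c) (_ : c 0 ∈ A) (_ : c L = x),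
    ∫⁻ s in Icc 0 L, ρ (c s)

variable {ρ : X → ℝ≥0∞} {A : Set X}

lemma pot_le {L : ℝ} (hL : 0 ≤ L) {c : ℝ → X} (hc : LipschitzWith 1 c) (h0 : c 0 ∈ A) :
    pot ρ A (c L) ≤ ∫⁻ s in Icc 0 L, ρ (c s) :=
  iInf₂_le_of_le L hL (iInf₂_le_of_le c hc (iInf₂_le_of_le h0 rfl le_rfl))

lemma exists_of_pot_lt {x : X} {a : ℝ≥0∞} (h : pot ρ A x < a) :
    ∃ (L : ℝ) (c : ℝ → X), 0 ≤ L ∧ LipschitzWith 1 c ∧ c 0 ∈ A ∧ c L = x ∧
      ∫⁻ s in Icc 0 L, ρ (c s) < a := by
  simp only [pot, iInf_lt_iff] at h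
  obtain ⟨L, hL, c, hc, h0, hx, hlt⟩ := h
  exact ⟨L, c, hL, hc, h0, hx, hlt⟩

lemma pot_eq_zero {x : X} (hx : x ∈ A) : pot ρ A x = 0 := by
  have h := pot_le (ρ := ρ) (A := A) (le_refl (0 : ℝ)) (c := fun _ => x)
    (LipschitzWith.const' x) hx
  have h2 : ∫⁻ _ in Icc (0 : ℝ) 0, ρ x = 0 := by simp
  rw [h2] at h
  exact le_antisymm h bot_le

lemma pot_step {c : ℝ → X} (hc : LipschitzWith 1 c) {s t : ℝ} (hst : s ≤ t) :
    pot ρ A (c t) ≤ pot ρ A (c s) + ∫⁻ τ in Icc s t, ρ (c τ) := by
  apply le_of_forall_gt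
  intro a ha
  -- choose a curve
  have h1 : ∃ b, pot ρ A (c s) < b ∧ b + ∫⁻ τ in Icc s t, ρ (c τ) < a := by
    have hI : ∫⁻ τ in Icc s t, ρ (c τ) ≠ ∞ := by
      intro h
      rw [h, add_top] at ha
      exact not_top_lt ha
    have hp : pot ρ A (c s) < a - ∫⁻ τ in Icc s t, ρ (c τ) := lt_tsub_iff_right.2 ha
    obtain ⟨b, hb1, hb2⟩ := exists_between hp
    exact ⟨b, hb1, lt_tsub_iff_right.1 hb2⟩
  obtain ⟨b, hb1, hb2⟩ := h1
  obtain ⟨L, c1, hL, hc1, h0, hx, hlt⟩ := exists_of_pot_lt hb1
  set c2 : ℝ → X := fun τ => if τ ≤ L then c1 τ else c (s + (τ - L)) with hc2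
  have hc2L : LipschitzWith 1 c2 := by
    apply LipschitzWith.of_dist_le_mul
    have key : ∀ a b : ℝ, a ≤ b → dist (c2 a) (c2 b) ≤ dist a b := by
      intro a b hab
      simp only [hc2]
      by_cases hb : b ≤ L
      · rw [if_pos (hab.trans hb), if_pos hb]
        simpa using hc1.dist_le_mul a b
      · by_cases ha : a ≤ L
        · rw [if_pos ha, if_neg hb]
          push Not at hb
          have e1 : dist (c1 a) (c1 L) ≤ dist a L := by simpa using hc1.dist_le_mul a L
          have e2 : dist (c s) (c (s + (b - L))) ≤ dist s (s + (b - L)) := by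
            simpa using hc.dist_le_mul s (s + (b - L))
          rw [hx] at e1
          calc dist (c1 a) (c (s + (b - L))) ≤ dist (c1 a) (c s) + dist (c s) (c (s + (b - L))) :=
                dist_triangle _ _ _
            _ ≤ dist a L + dist s (s + (b - L)) := add_le_add e1 e2
            _ = dist a b := by
                rw [Real.dist_eq, Real.dist_eq, Real.dist_eq, abs_of_nonpos (by linarith),
                  abs_of_nonpos (by linarith), abs_of_nonpos (by linarith)]
                ring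
        · rw [if_neg ha, if_neg hb]
          have e2 : dist (c (s + (a - L))) (c (s + (b - L)))
              ≤ dist (s + (a - L)) (s + (b - L)) := by
            simpa using hc.dist_le_mul (s + (a - L)) (s + (b - L))
          refine e2.trans (le_of_eq ?_)
          rw [Real.dist_eq, Real.dist_eq]
          congr 1; ring
    intro a b
    rw [NNReal.coe_one, one_mul]
    rcases le_total a b with h | h
    · exact key a b h
    · rw [dist_comm, dist_comm a b]; exact key b a h
  have hc20 : c2 0 ∈ A := by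
    simp only [hc2, if_pos hL]; exact h0
  have hc2e : c2 (L + (t - s)) = c t := by
    simp only [hc2]
    by_cases h : L + (t - s) ≤ L
    · have : t = s := by linarith
      rw [if_pos h, this, sub_self, add_zero, hx]
    · rw [if_neg h]; congr 1; ring
  have hle := pot_le (ρ := ρ) (A := A) (L := L + (t - s)) (by linarith) hc2L hc20
  rw [hc2e] at hle
  refine hle.trans_lt (lt_of_le_of_lt ?_ hb2)
  have hunion : Icc 0 (L + (t - s)) ⊆ Icc 0 L ∪ Ioc L (L + (t - s)) := by
    intro τ hτ
    rcases le_or_gt τ L with h | h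
    · exact Or.inl ⟨hτ.1, h⟩
    · exact Or.inr ⟨h, hτ.2⟩
  calc ∫⁻ τ in Icc 0 (L + (t - s)), ρ (c2 τ)
      ≤ ∫⁻ τ in Icc 0 L ∪ Ioc L (L + (t - s)), ρ (c2 τ) := lintegral_mono_set hunion
    _ ≤ (∫⁻ τ in Icc 0 L, ρ (c2 τ)) + ∫⁻ τ in Ioc L (L + (t - s)), ρ (c2 τ) :=
        lintegral_union_le _ _ _
    _ ≤ b + ∫⁻ τ in Icc s t, ρ (c τ) := by
        apply add_le_add
        · refine le_trans (le_of_eq ?_) hlt.le
          refine setLIntegral_congr_fun measurableSet_Icc fun τ hτ => ?_
          simp only [hc2, if_pos hτ.2]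
        · have e1 : ∫⁻ τ in Ioc L (L + (t - s)), ρ (c2 τ)
              = ∫⁻ τ in Ioc L (L + (t - s)), ρ (c (τ + (s - L))) := by
            refine setLIntegral_congr_fun measurableSet_Ioc fun τ hτ => ?_
            simp only [hc2, if_neg (not_le.2 hτ.1)]
            congr 2; ring
          have hmp := measurePreserving_add_right (volume : Measure ℝ) (s - L)
          have e2 : (fun τ : ℝ => τ + (s - L)) ⁻¹' (Ioc s t) = Ioc L (L + (t - s)) := by
            ext τ
            simp only [mem_preimage, mem_Ioc]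
            constructor <;> rintro ⟨h1, h2⟩ <;> constructor <;> linarith
          rw [e1, ← e2, hmp.setLIntegral_comp_preimage_emb
            (measurableEmbedding_addRight (s - L)) (fun σ => ρ (c σ))]
          exact lintegral_mono_set Ioc_subset_Icc_self

lemma pot_step_rev {c : ℝ → X} (hc : LipschitzWith 1 c) {s t : ℝ} (hst : s ≤ t) :
    pot ρ A (c s) ≤ pot ρ A (c t) + ∫⁻ τ in Icc s t, ρ (c τ) := by
  have hc' : LipschitzWith 1 (fun τ => c (-τ)) := by
    apply LipschitzWith.of_dist_le_mul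
    intro a b
    have := hc.dist_le_mul (-a) (-b)
    rwa [dist_neg_neg] at this
  have h := pot_step (ρ := ρ) (A := A) hc' (neg_le_neg hst)
  simp only [neg_neg] at h
  refine h.trans (le_of_eq ?_)
  congr 1
  have hmp := Measure.measurePreserving_neg (volume : Measure ℝ)
  have e2 : (fun τ : ℝ => -τ) ⁻¹' (Icc s t) = Icc (-t) (-s) := by
    ext τ
    simp only [mem_preimage, mem_Icc]
    constructor <;> rintro ⟨h1, h2⟩ <;> constructor <;> linarith
  rw [← e2]
  exact hmp.setLIntegral_comp_preimage_emb (MeasurableEquiv.neg ℝ).measurableEmbedding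
    (fun σ => ρ (c σ)) (Icc s t)

/-- Property (P): the curves from `A` of `ρ`-length less than one stay in a compact set and have
bounded length. -/
def HasP (ρ : X → ℝ≥0∞) (A : Set X) : Prop :=
  ∃ (B : Set X) (Λ : ℝ), IsCompact B ∧ ∀ (L : ℝ) (c : ℝ → X), 0 ≤ L → LipschitzWith 1 c →
    c 0 ∈ A → ∫⁻ s in Icc 0 L, ρ (c s) < 1 → (∀ s ∈ Icc 0 L, c s ∈ B) ∧ L ≤ Λ

lemma isClosed_pot_le (hρ : LowerSemicontinuous ρ) (hA : IsClosed A) (hP : HasP ρ A)
    {y : ℝ≥0∞} (hy : y < 1) : IsClosed {x | pot ρ A x ≤ y} := by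
  obtain ⟨B, Λ, hB, hPB⟩ := hP
  apply IsSeqClosed.isClosed
  intro xs x hxs hx
  have hchoose : ∀ j : ℕ, ∃ (L : ℝ) (c : ℝ → X), 0 ≤ L ∧ LipschitzWith 1 c ∧ c 0 ∈ A ∧
      c L = xs j ∧ ∫⁻ s in Icc 0 L, ρ (c s) < min (y + ((j : ℝ≥0∞) + 1)⁻¹) 1 := by
    intro j
    apply exists_of_pot_lt
    refine lt_of_le_of_lt (hxs j) (lt_min ?_ hy)
    apply ENNReal.lt_add_right (ne_top_of_lt hy)
    simp
  choose L c hL hc h0 hx' hlt using hchoose
  have hLB := fun j => hPB (L j) (c j) (hL j) (hc j) (h0 j) ((hlt j).trans_le (min_le_right _ _))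
  have hΛ : 0 ≤ Λ := (hL 0).trans (hLB 0).2
  -- extended curves
  set g : ℕ → ℝ → X := fun j s => c j (projIcc 0 (L j) (hL j) s) with hg
  have hgL : ∀ j, LipschitzWith 1 (g j) := by
    intro j
    have : LipschitzWith 1 (c j ∘ Subtype.val ∘ projIcc 0 (L j) (hL j)) := by
      simpa using (hc j).comp (LipschitzWith.subtype_val (Icc 0 (L j)) |>.comp
        (LipschitzWith.projIcc (hL j)))
    exact this
  have hgB : ∀ j s, g j s ∈ B := fun j s => (hLB j).1 _ (projIcc 0 (L j) (hL j) s).2
  -- restrict to a compact interval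
  let F : ℕ → BoundedContinuousFunction (Icc (0 : ℝ) Λ) X := fun j =>
    BoundedContinuousFunction.mkOfCompact ⟨fun s => g j s, (hgL j).continuous.comp
      continuous_subtype_val⟩
  set 𝒜 : Set (BoundedContinuousFunction (Icc (0 : ℝ) Λ) X) := range F with h𝒜
  have hcomp : IsCompact (closure 𝒜) := by
    apply BoundedContinuousFunction.arzela_ascoli B hB 𝒜
    · rintro f s ⟨j, rfl⟩
      exact hgB j s
    · apply UniformEquicontinuous.equicontinuous
      rw [Metric.uniformEquicontinuous_iff]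
      intro ε hε
      refine ⟨ε, hε, ?_⟩
      rintro a b hab ⟨f, j, rfl⟩
      have := (hgL j).dist_le_mul a b
      rw [NNReal.coe_one, one_mul] at this
      exact lt_of_le_of_lt this hab
  obtain ⟨f, -, φ, hφ, hlim⟩ := hcomp.tendsto_subseq (fun j => subset_closure ⟨j, rfl⟩ : ∀ j, F j ∈ closure 𝒜)
  obtain ⟨L', -, ψ, hψ, hlimL⟩ := (isCompact_Icc (a := (0 : ℝ)) (b := Λ)).tendsto_subseq
    (fun j => (⟨hL (φ j), (hLB (φ j)).2⟩ : L (φ j) ∈ Icc 0 Λ))
  set θ : ℕ → ℕ := fun j => φ (ψ j) with hθ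
  have hθt : Tendsto θ atTop atTop := hφ.tendsto_atTop.comp hψ.tendsto_atTop
  have hLlim : Tendsto (fun j => L (θ j)) atTop (𝓝 L') := hlimL
  have hL'0 : 0 ≤ L' := ge_of_tendsto' hLlim fun j => hL _
  set C : ℝ → X := fun s => f (projIcc 0 Λ hΛ s) with hC
  have hpt : ∀ s, Tendsto (fun j => g (θ j) s) atTop (𝓝 (C s)) := by
    intro s
    have h1 : ∀ j, g j s = F j (projIcc 0 Λ hΛ s) := by
      intro j
      change c j (projIcc 0 (L j) (hL j) s)
        = c j (projIcc 0 (L j) (hL j) ((projIcc 0 Λ hΛ s : Icc (0 : ℝ) Λ) : ℝ))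
      congr 1
      simp only [coe_projIcc]
      have hLj := (hLB j).2
      have hLj0 := hL j
      rcases le_total s 0 with h | h
      · rw [min_eq_right (h.trans hΛ), max_eq_left h, min_eq_right hLj0,
          min_eq_right (h.trans hLj0), max_eq_left h, max_eq_left le_rfl]
      · rcases le_total s Λ with h' | h'
        · rw [min_eq_right h', max_eq_right h]
        · rw [min_eq_left h', max_eq_right hΛ, min_eq_left hLj, min_eq_left (hLj.trans h')]
    have h2 : Tendsto (fun j => F (θ j)) atTop (𝓝 f) := hlim.comp hψ.tendsto_atTop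
    have h3 := ((continuous_eval_const (F := BoundedContinuousFunction (Icc (0 : ℝ) Λ) X)
      (projIcc 0 Λ hΛ s)).tendsto f).comp h2
    exact h3.congr fun j => (h1 _).symm
  have hCL : LipschitzWith 1 C := by
    apply LipschitzWith.of_dist_le_mul
    intro a b
    refine le_of_tendsto ((hpt a).dist (hpt b)) (Eventually.of_forall fun j => ?_)
    exact (hgL _).dist_le_mul a b
  have hC0 : C 0 ∈ A := by
    refine hA.mem_of_tendsto (hpt 0) (Eventually.of_forall fun j => ?_)
    have : g (θ j) 0 = c (θ j) 0 := by simp [hg, projIcc_left]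
    rw [this]; exact h0 _
  have hCx : C L' = x := by
    have h1 : Tendsto (fun j => xs (θ j)) atTop (𝓝 x) := hx.comp hθt
    have h2 : Tendsto (fun j => dist (g (θ j) L') (xs (θ j))) atTop (𝓝 0) := by
      refine squeeze_zero (fun _ => dist_nonneg) (g := fun j => dist L' (L (θ j))) (fun j => ?_) ?_
      · have : xs (θ j) = g (θ j) (L (θ j)) := by simp [hg, projIcc_right, hx']
        rw [this]
        simpa using (hgL (θ j)).dist_le_mul L' (L (θ j))
      · have := (tendsto_const_nhds (x := L')).dist hLlim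
        simpa using this
    have h3 := (hpt L').dist h1
    have h4 := tendsto_nhds_unique h3 h2
    exact dist_eq_zero.1 h4
  -- Fatou
  have hfatou : ∫⁻ s in Icc 0 L', ρ (C s) ≤ y := by
    have hmeas : ∀ j, Measurable (fun s => (Icc 0 (L (θ j))).indicator
        (fun s => ρ (c (θ j) s)) s) := by
      intro j
      have : LowerSemicontinuous (fun s => ρ (c (θ j) s)) :=
        hρ.comp (hc (θ j)).continuous
      exact this.measurable.indicator measurableSet_Icc
    calc ∫⁻ s in Icc 0 L', ρ (C s) = ∫⁻ s in Ioo 0 L', ρ (C s) := by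
          rw [restrict_Ioo_eq_restrict_Icc]
      _ ≤ ∫⁻ s in Ioo 0 L', liminf (fun j => (Icc 0 (L (θ j))).indicator
            (fun s => ρ (c (θ j) s)) s) atTop := by
          apply setLIntegral_mono' measurableSet_Ioo
          intro s hs
          apply le_of_forall_lt
          intro a ha
          obtain ⟨b, hab, hb⟩ := exists_between ha
          refine lt_of_lt_of_le hab (le_liminf_of_le (by isBoundedDefault) ?_)
          have e1 : ∀ᶠ j in atTop, b < ρ (g (θ j) s) := (hpt s).eventually (hρ (C s) b hb)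
          have e2 : ∀ᶠ j in atTop, s < L (θ j) := hLlim.eventually (lt_mem_nhds hs.2)
          filter_upwards [e1, e2] with j h1 h2
          have hmem : s ∈ Icc 0 (L (θ j)) := ⟨hs.1.le, h2.le⟩
          rw [indicator_of_mem hmem]
          have : g (θ j) s = c (θ j) s := by simp [hg, projIcc_of_mem _ hmem]
          rw [this] at h1
          exact h1.le
      _ ≤ ∫⁻ s, liminf (fun j => (Icc 0 (L (θ j))).indicator
            (fun s => ρ (c (θ j) s)) s) atTop := setLIntegral_le_lintegral _ _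
      _ ≤ liminf (fun j => ∫⁻ s, (Icc 0 (L (θ j))).indicator
            (fun s => ρ (c (θ j) s)) s) atTop := lintegral_liminf_le hmeas
      _ ≤ liminf (fun j => y + ((θ j : ℝ≥0∞) + 1)⁻¹) atTop := by
          apply liminf_le_liminf (Eventually.of_forall fun j => ?_)
          rw [lintegral_indicator measurableSet_Icc]
          exact ((hlt (θ j)).trans_le (min_le_left _ _)).le
      _ = y := by
          have h1 : Tendsto (fun j : ℕ => y + ((j : ℝ≥0∞) + 1)⁻¹) atTop (𝓝 (y + 0)) := by
            apply Tendsto.add tendsto_const_nhds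
            have : Tendsto (fun j : ℕ => ((j + 1 : ℕ) : ℝ≥0∞)⁻¹) atTop (𝓝 0) :=
              (tendsto_add_atTop_iff_nat 1).2 ENNReal.tendsto_inv_nat_nhds_zero
            simpa using this
          rw [add_zero] at h1
          exact (h1.comp hθt).liminf_eq
  change pot ρ A x ≤ y
  rw [← hCx]
  exact (pot_le hL'0 hCL hC0).trans hfatou

end Pool.Agent.R252.Pol
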