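import Mathlib
import Pool.Agent.R252.Pol.OneD
import Pool.Agent.R252.Pol.Pot

/-!
Polarization of an admissible density.
-/

set_option autoImplicit false

open MeasureTheory Set Filter Topology
open scoped ENNReal NNReal Interval

namespace Pool.Agent.R252.Pol

variable {X : Type*} [MetricSpace X]

/-- Admissibility tested on `1`-Lipschitz curves. -/
def Adm (ρ : X → ℝ≥0∞) (A B : Set X) : Prop :=
  ∀ (L : ℝ) (c : ℝ → X), 0 ≤ L → LipschitzWith 1 c → c 0 ∈ A → c L ∈ B →
    1 ≤ ∫⁻ s in Icc 0 L, ρ (c s)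

/-- The truncated potential, as a real function. -/
noncomputable def tpot (ρ : X → ℝ≥0∞) (A : Set X) (x : X) : ℝ := (min (pot ρ A x) 1).toReal

/-- The polarization of the truncated potential. -/
noncomputable def pol (ρ : X → ℝ≥0∞) (A : Set X) (r : X → X) (h : X → ℝ) (x : X) : ℝ :=
  open Classical in
  if 0 < h x then min (tpot ρ A x) (tpot ρ A (r x)) else max (tpot ρ A x) (tpot ρ A (r x))

/-- The polarized density. -/
noncomputable def polρ (ρ : X → ℝ≥0∞) (A : Set X) (r : X → X) (h : X → ℝ) (x : X) : ℝ≥0∞ :=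
  open Classical in
  if pol ρ A r h x = tpot ρ A x then ρ x else ρ (r x)

variable {ρ : X → ℝ≥0∞} {A F : Set X} {r : X → X} {h : X → ℝ}

lemma tpot_diff {c : ℝ → X} (hc : LipschitzWith 1 c) {s t : ℝ} (hst : s ≤ t)
    (hfin : ∫⁻ τ in Icc s t, ρ (c τ) ≠ ∞) :
    |tpot ρ A (c t) - tpot ρ A (c s)| ≤ (∫⁻ τ in Icc s t, ρ (c τ)).toReal := by
  have h1 := pot_step (ρ := ρ) (A := A) hc hst
  have h2 := pot_step_rev (ρ := ρ) (A := A) hc hst
  set I := ∫⁻ τ in Icc s t, ρ (c τ)
  have key : ∀ a b : ℝ≥0∞, a ≤ b + I → (min a 1).toReal ≤ (min b 1).toReal + I.toReal := by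
    intro a b hab
    have hb : min b 1 ≠ ∞ := ne_top_of_le_ne_top ENNReal.one_ne_top (min_le_right _ _)
    rw [← ENNReal.toReal_add hb hfin]
    apply ENNReal.toReal_mono (ENNReal.add_ne_top.2 ⟨hb, hfin⟩)
    rcases le_total b 1 with h | h
    · rw [min_eq_left h]; exact (min_le_left _ _).trans hab
    · rw [min_eq_right h]; exact (min_le_right _ _).trans (le_add_of_nonneg_right bot_le)
  have k1 := key _ _ h1
  have k2 := key _ _ h2
  rw [abs_le]
  constructor
  · simp only [tpot]; linarith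
  · simp only [tpot]; linarith

lemma tpot_zero {x : X} (hx : x ∈ A) : tpot ρ A x = 0 := by
  simp [tpot, pot_eq_zero hx]

lemma tpot_le_one (x : X) : tpot ρ A x ≤ 1 := by
  have := ENNReal.toReal_mono ENNReal.one_ne_top (min_le_right (pot ρ A x) 1)
  simpa [tpot] using this

lemma tpot_nonneg (x : X) : 0 ≤ tpot ρ A x := ENNReal.toReal_nonneg

lemma tpot_one {B : Set X} (hAdm : Adm ρ A B) {x : X} (hx : x ∈ B) : tpot ρ A x = 1 := by
  have : 1 ≤ pot ρ A x := by
    simp only [pot, le_iInf_iff]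
    intro L hL c hc h0 hcx
    exact hAdm L c hL hc h0 (by rw [hcx]; exact hx)
  simp [tpot, min_eq_right this]

lemma tpot_meas [MeasurableSpace X] [BorelSpace X] (hρ : LowerSemicontinuous ρ)
    (hA : IsClosed A) (hP : HasP ρ A) : Measurable (tpot ρ A) := by
  apply Measurable.ennreal_toReal
  apply measurable_of_Iic
  intro y
  rcases lt_or_ge y 1 with hy | hy
  · have : (fun x => min (pot ρ A x) 1) ⁻¹' Iic y = {x | pot ρ A x ≤ y} := by
      ext x
      simp only [mem_preimage, mem_Iic, mem_ofPred_eq]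
      constructor
      · intro h
        rcases min_le_iff.1 h with h | h
        · exact h
        · exact absurd h (not_le.2 hy)
      · intro h
        exact (min_le_left _ _).trans h
    rw [this]
    exact (isClosed_pot_le hρ hA hP hy).measurableSet
  · have : (fun x => min (pot ρ A x) 1) ⁻¹' Iic y = univ := by
      ext x
      simp only [mem_preimage, mem_Iic, mem_univ, iff_true]
      exact (min_le_right _ _).trans hy
    rw [this]
    exact MeasurableSet.univ

lemma pol_sel (x : X) : pol ρ A r h x = tpot ρ A x ∨ pol ρ A r h x = tpot ρ A (r x) := by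
  unfold pol
  split_ifs
  · exact min_choice _ _
  · exact max_choice _ _

/-- The set where the density is swapped. -/
lemma pol_ne_iff (hr0 : ∀ x, h x = 0 → r x = x) (x : X) :
    pol ρ A r h x ≠ tpot ρ A x ↔
      (0 < h x ∧ tpot ρ A (r x) < tpot ρ A x) ∨ (h x < 0 ∧ tpot ρ A x < tpot ρ A (r x)) := by
  unfold pol
  split_ifs with hx
  · constructor
    · intro hne
      left
      refine ⟨hx, ?_⟩
      by_contra hcon
      push Not at hcon
      exact hne (min_eq_left hcon)
    · rintro (⟨-, h2⟩ | ⟨h1, -⟩)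
      · rw [min_eq_right h2.le]; exact ne_of_lt h2
      · exact absurd h1 (not_lt.2 hx.le)
  · constructor
    · intro hne
      right
      have h3 : tpot ρ A x < tpot ρ A (r x) := by
        by_contra hcon
        push Not at hcon
        exact hne (max_eq_left hcon)
      refine ⟨?_, h3⟩
      rcases (not_lt.1 hx).lt_or_eq with h4 | h4
      · exact h4
      · rw [hr0 x h4] at h3
        exact absurd h3 (lt_irrefl _)
    · rintro (⟨h1, -⟩ | ⟨-, h2⟩)
      · exact absurd h1 hx
      · rw [max_eq_right h2.le]; exact (ne_of_lt h2).symm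

lemma pol_ne_symm (hr0 : ∀ x, h x = 0 → r x = x) (hrr : ∀ x, r (r x) = x)
    (hh : ∀ x, h (r x) = - h x) (x : X) :
    pol ρ A r h (r x) ≠ tpot ρ A (r x) ↔ pol ρ A r h x ≠ tpot ρ A x := by
  rw [pol_ne_iff hr0, pol_ne_iff hr0, hrr, hh]
  constructor
  · rintro (⟨h1, h2⟩ | ⟨h1, h2⟩)
    · right; exact ⟨by linarith, h2⟩
    · left; exact ⟨by linarith, h2⟩
  · rintro (⟨h1, h2⟩ | ⟨h1, h2⟩)
    · right; exact ⟨by linarith, h2⟩
    · left; exact ⟨by linarith, h2⟩

section meas

variable [MeasureSpace X] [BorelSpace X]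

lemma swapSet_meas (hρ : LowerSemicontinuous ρ) (hA : IsClosed A) (hP : HasP ρ A)
    (hr : Continuous r) (hhc : Continuous h) :
    MeasurableSet {x | pol ρ A r h x ≠ tpot ρ A x} := by
  have ht := tpot_meas hρ hA hP
  have ht2 : Measurable (fun x => tpot ρ A (r x)) := ht.comp hr.measurable
  have hp : Measurable (pol ρ A r h) := by
    unfold pol
    exact Measurable.ite (measurableSet_lt measurable_const hhc.measurable) (ht.min ht2)
      (ht.max ht2)
  exact (measurableSet_eq_fun hp ht).compl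

lemma polρ_meas (hρ : LowerSemicontinuous ρ) (hA : IsClosed A) (hP : HasP ρ A)
    (hr : Continuous r) (hhc : Continuous h) : Measurable (polρ ρ A r h) := by
  unfold polρ
  apply Measurable.ite _ hρ.measurable (hρ.measurable.comp hr.measurable)
  have := (swapSet_meas hρ hA hP hr hhc).compl
  convert this using 1
  ext x
  simp

/-- The polarized density has the same energy. -/
lemma polρ_energy (hρ : LowerSemicontinuous ρ) (hA : IsClosed A) (hP : HasP ρ A)
    (hr : Continuous r) (hhc : Continuous h) (hmp : MeasurePreserving r)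
    (hr0 : ∀ x, h x = 0 → r x = x) (hrr : ∀ x, r (r x) = x)
    (hh : ∀ x, h (r x) = - h x) (g : ℝ≥0∞ → ℝ≥0∞) (hg : Measurable g) :
    ∫⁻ x, g (polρ ρ A r h x) = ∫⁻ x, g (ρ x) := by
  set T := {x | pol ρ A r h x ≠ tpot ρ A x} with hT
  have hTm : MeasurableSet T := swapSet_meas hρ hA hP hr hhc
  have hTr : r ⁻¹' T = T := by
    ext x
    exact pol_ne_symm hr0 hrr hh x
  rw [← lintegral_add_compl _ hTm, ← lintegral_add_compl (fun x => g (ρ x)) hTm]
  congr 1
  · have e1 : ∫⁻ x in T, g (polρ ρ A r h x) = ∫⁻ x in T, g (ρ (r x)) := by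
      refine setLIntegral_congr_fun hTm fun x hx => ?_
      simp only [polρ, if_neg hx]
    rw [e1]
    conv_lhs => rw [← hTr]
    exact hmp.setLIntegral_comp_preimage hTm (hg.comp hρ.measurable)
  · refine setLIntegral_congr_fun hTm.compl fun x hx => ?_
    simp only [hT, mem_compl_iff, mem_ofPred_eq, not_not] at hx
    simp only [polρ, if_pos hx]

set_option linter.unusedSectionVars false in
/-- **Polarization.** -/
theorem swap_adm (hρ : LowerSemicontinuous ρ) (hrL : LipschitzWith 1 r)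
    (hhc : Continuous h) (hr0 : ∀ x, h x = 0 → r x = x) (hrr : ∀ x, r (r x) = x)
    (hA0 : ∀ x ∈ A, 0 < h x) (hF0 : ∀ x ∈ F, h x < 0)
    (hAdm : Adm ρ A (r ⁻¹' F)) {ε : ℝ≥0∞} (hε : ε ≠ 0) :
    Adm (fun x => polρ ρ A r h x + ε * (ρ x + ρ (r x))) A F := by
  intro L c hL hc h0 hL1
  have hcr : LipschitzWith 1 (fun t => r (c t)) := by
    have : LipschitzWith 1 (r ∘ c) := by simpa using hrL.comp hc
    exact this
  have hm1 : Measurable (fun t => ρ (c t)) := (hρ.comp hc.continuous).measurable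
  have hm2 : Measurable (fun t => ρ (r (c t))) := (hρ.comp hcr.continuous).measurable
  by_cases hf1 : ∫⁻ s in Icc 0 L, ρ (c s) = ∞
  · have : ∫⁻ s in Icc 0 L, ε * ρ (c s) ≤
        ∫⁻ s in Icc 0 L, (polρ ρ A r h (c s) + ε * (ρ (c s) + ρ (r (c s)))) := by
      apply lintegral_mono
      intro s
      calc ε * ρ (c s) ≤ ε * (ρ (c s) + ρ (r (c s))) := by gcongr; exact le_add_of_nonneg_right bot_le
        _ ≤ _ := le_add_of_nonneg_left bot_le
    rw [lintegral_const_mul _ hm1, hf1, ENNReal.mul_top hε] at this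
    exact le_trans le_top this
  by_cases hf2 : ∫⁻ s in Icc 0 L, ρ (r (c s)) = ∞
  · have : ∫⁻ s in Icc 0 L, ε * ρ (r (c s)) ≤
        ∫⁻ s in Icc 0 L, (polρ ρ A r h (c s) + ε * (ρ (c s) + ρ (r (c s)))) := by
      apply lintegral_mono
      intro s
      calc ε * ρ (r (c s)) ≤ ε * (ρ (c s) + ρ (r (c s))) := by
            gcongr; exact le_add_of_nonneg_left bot_le
        _ ≤ _ := le_add_of_nonneg_left bot_le
    rw [lintegral_const_mul _ hm2, hf2, ENNReal.mul_top hε] at this
    exact le_trans le_top this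
  -- both finite
  set ρ1 : ℝ → ℝ := fun t => (ρ (c t)).toReal with hρ1
  set ρ2 : ℝ → ℝ := fun t => (ρ (r (c t))).toReal with hρ2
  have hfin : ∀ (g : ℝ → ℝ≥0∞), ∫⁻ s in Icc 0 L, g s ≠ ∞ → ∀ s t, 0 ≤ s → t ≤ L →
      ∫⁻ τ in Icc s t, g τ ≠ ∞ := by
    intro g hg s t hs ht
    exact ne_top_of_le_ne_top hg (lintegral_mono_set (Icc_subset_Icc hs ht))
  have hII : ∀ (g : ℝ → ℝ≥0∞), Measurable g → ∫⁻ s in Icc 0 L, g s ≠ ∞ →
      IntervalIntegrable (fun t => (g t).toReal) volume 0 L := by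
    intro g hgm hg
    rw [intervalIntegrable_iff_integrableOn_Icc_of_le hL]
    exact integrable_toReal_of_lintegral_ne_top hgm.aemeasurable hg
  have hI : ∀ (g : ℝ → ℝ≥0∞), Measurable g → ∫⁻ s in Icc 0 L, g s ≠ ∞ → ∀ s t, 0 ≤ s → s ≤ t →
      t ≤ L → (∫⁻ τ in Icc s t, g τ).toReal = ∫ τ in s..t, (g τ).toReal := by
    intro g hgm hg s t hs hst ht
    have h1 := hfin g hg s t hs ht
    rw [intervalIntegral.integral_of_le hst, ← integral_Icc_eq_integral_Ioc,
      integral_toReal hgm.aemeasurable (ae_lt_top' hgm.aemeasurable h1)]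
  have i1 := hII _ hm1 hf1
  have i2 := hII _ hm2 hf2
  have hu1 : ∀ s t, 0 ≤ s → s ≤ t → t ≤ L →
      |tpot ρ A (c t) - tpot ρ A (c s)| ≤ ∫ x in s..t, ρ1 x := by
    intro s t hs hst ht
    rw [← hI _ hm1 hf1 s t hs hst ht]
    exact tpot_diff hc hst (hfin _ hf1 s t hs ht)
  have hu2 : ∀ s t, 0 ≤ s → s ≤ t → t ≤ L →
      |tpot ρ A (r (c t)) - tpot ρ A (r (c s))| ≤ ∫ x in s..t, ρ2 x := by
    intro s t hs hst ht
    rw [← hI _ hm2 hf2 s t hs hst ht]
    exact tpot_diff hcr hst (hfin _ hf2 s t hs ht)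
  have isub : ∀ (g : ℝ → ℝ), IntervalIntegrable g volume 0 L → ∀ s t, 0 ≤ s → s ≤ t → t ≤ L →
      IntervalIntegrable g volume s t := by
    intro g hg s t hs hst ht
    exact hg.mono_set (by
      rw [uIcc_of_le hst, uIcc_of_le hL]; exact Icc_subset_Icc hs ht)
  have hn1 : ∀ t, 0 ≤ ρ1 t := fun t => ENNReal.toReal_nonneg
  have hn2 : ∀ t, 0 ≤ ρ2 t := fun t => ENNReal.toReal_nonneg
  have hmin : ∀ s t, 0 ≤ s → s ≤ t → t ≤ L →
      |min (tpot ρ A (c t)) (tpot ρ A (r (c t))) - min (tpot ρ A (c s)) (tpot ρ A (r (c s)))|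
        ≤ ∫ x in s..t, (ρ1 x + ρ2 x) := by
    intro s t hs hst ht
    rw [intervalIntegral.integral_add (isub _ i1 s t hs hst ht) (isub _ i2 s t hs hst ht)]
    refine (abs_min_sub_min_le_max _ _ _ _).trans (max_le ?_ ?_)
    · exact (hu1 s t hs hst ht).trans (le_add_of_nonneg_right
        (intervalIntegral.integral_nonneg hst fun x _ => hn2 x))
    · exact (hu2 s t hs hst ht).trans (le_add_of_nonneg_left
        (intervalIntegral.integral_nonneg hst fun x _ => hn1 x))
  have hmax : ∀ s t, 0 ≤ s → s ≤ t → t ≤ L →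
      |max (tpot ρ A (c t)) (tpot ρ A (r (c t))) - max (tpot ρ A (c s)) (tpot ρ A (r (c s)))|
        ≤ ∫ x in s..t, (ρ1 x + ρ2 x) := by
    intro s t hs hst ht
    rw [intervalIntegral.integral_add (isub _ i1 s t hs hst ht) (isub _ i2 s t hs hst ht)]
    refine (abs_max_sub_max_le_max _ _ _ _).trans (max_le ?_ ?_)
    · exact (hu1 s t hs hst ht).trans (le_add_of_nonneg_right
        (intervalIntegral.integral_nonneg hst fun x _ => hn2 x))
    · exact (hu2 s t hs hst ht).trans (le_add_of_nonneg_left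
        (intervalIntegral.integral_nonneg hst fun x _ => hn1 x))
  have hsum : ∀ s τ t, 0 ≤ s → s ≤ τ → τ ≤ t → t ≤ L →
      (∫ x in s..τ, (ρ1 x + ρ2 x)) + ∫ x in τ..t, (ρ1 x + ρ2 x)
        = ∫ x in s..t, (ρ1 x + ρ2 x) := by
    intro s τ t hs h1 h2 ht
    exact intervalIntegral.integral_add_adjacent_intervals
      (isub _ (i1.add i2) s τ hs h1 (h2.trans ht))
      (isub _ (i1.add i2) τ t (hs.trans h1) h2 ht)
  have hhcc : Continuous (fun t => h (c t)) := hhc.comp hc.continuous
  have hV : ∀ s t, 0 ≤ s → s ≤ t → t ≤ L →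
      |pol ρ A r h (c t) - pol ρ A r h (c s)| ≤ ∫ x in s..t, (ρ1 x + ρ2 x) := by
    intro s t hs hst ht
    by_cases hcs : 0 < h (c s)
    · by_cases hct : 0 < h (c t)
      · simp only [pol, if_pos hcs, if_pos hct]
        exact hmin s t hs hst ht
      · push Not at hct
        obtain ⟨τ, hτ, hτ0⟩ := intermediate_value_Icc' hst hhcc.continuousOn ⟨hct, hcs.le⟩
        have hrτ : r (c τ) = c τ := hr0 _ hτ0
        have a1 := hmax τ t (hs.trans hτ.1) hτ.2 ht
        have a2 := hmin s τ hs hτ.1 (hτ.2.trans ht)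
        rw [hrτ, max_self] at a1
        rw [hrτ, min_self] at a2
        have a3 := hsum s τ t hs hτ.1 hτ.2 ht
        simp only [pol, if_pos hcs, if_neg (not_lt.2 hct)]
        calc _ ≤ _ := abs_sub_le _ (tpot ρ A (c τ)) _
          _ ≤ _ := by linarith
    · by_cases hct : 0 < h (c t)
      · push Not at hcs
        obtain ⟨τ, hτ, hτ0⟩ := intermediate_value_Icc hst hhcc.continuousOn ⟨hcs, hct.le⟩
        have hrτ : r (c τ) = c τ := hr0 _ hτ0
        have a1 := hmin τ t (hs.trans hτ.1) hτ.2 ht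
        have a2 := hmax s τ hs hτ.1 (hτ.2.trans ht)
        rw [hrτ, min_self] at a1
        rw [hrτ, max_self] at a2
        have a3 := hsum s τ t hs hτ.1 hτ.2 ht
        simp only [pol, if_neg (not_lt.2 hcs), if_pos hct]
        calc _ ≤ _ := abs_sub_le _ (tpot ρ A (c τ)) _
          _ ≤ _ := by linarith
      · simp only [pol, if_neg hcs, if_neg hct]
        exact hmax s t hs hst ht
  have hmain := switch_bound hL i1 i2 hn1 hn2 hu1 hu2 hV (fun t _ => pol_sel (c t))
  have hv0 : pol ρ A r h (c 0) = 0 := by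
    simp only [pol, if_pos (hA0 _ h0), tpot_zero h0]
    exact min_eq_left (tpot_nonneg _)
  have hvL : pol ρ A r h (c L) = 1 := by
    have h1 : tpot ρ A (r (c L)) = 1 := tpot_one hAdm (by simpa [hrr] using hL1)
    simp only [pol, if_neg (not_lt.2 (hF0 _ hL1).le), h1]
    exact max_eq_right (tpot_le_one _)
  rw [hv0, hvL, sub_zero, ENNReal.ofReal_one] at hmain
  refine hmain.trans (lintegral_mono fun t => ?_)
  refine le_trans ?_ (le_add_of_nonneg_right bot_le)
  simp only [polρ]
  split_ifs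
  · exact ENNReal.ofReal_toReal_le
  · exact ENNReal.ofReal_toReal_le

end meas

end Pool.Agent.R252.Pol
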