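import Mathlib
import Pool.Agent.R252.Pol.Swap

/-!
Approximation of an admissible density by a lower semicontinuous one with property (P), and the
polarization inequality for the modulus tested on Lipschitz curves.
-/

set_option autoImplicit false

open MeasureTheory Set Filter Topology Module
open scoped ENNReal NNReal Interval MeasureTheory

namespace Pool.Agent.R252.Pol

lemma volume_image_le {g : ℝ → ℝ} (hg : LipschitzWith 1 g) (S : Set ℝ) :
    volume (g '' S) ≤ volume S := by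
  have := hg.hausdorffMeasure_image_le (d := 1) zero_le_one S
  simpa [hausdorffMeasure_real] using this

lemma crossing {g : ℝ → ℝ} (hg : LipschitzWith 1 g) {a b T : ℝ} (hT : 0 ≤ T) (h0 : g 0 ≤ a)
    (hb : b ≤ g T) : ENNReal.ofReal (b - a) ≤ volume (Icc 0 T ∩ g ⁻¹' Ioo a b) := by
  have hsub : Ioo a b ⊆ g '' (Icc 0 T ∩ g ⁻¹' Ioo a b) := by
    intro y hy
    obtain ⟨s, hs, hsy⟩ := intermediate_value_Icc hT hg.continuous.continuousOn
      ⟨h0.trans hy.1.le, hy.2.le.trans hb⟩
    exact ⟨s, ⟨hs, by rw [mem_preimage, hsy]; exact hy⟩, hsy⟩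
  calc ENNReal.ofReal (b - a) = volume (Ioo a b) := by rw [Real.volume_Ioo]
    _ ≤ volume (g '' (Icc 0 T ∩ g ⁻¹' Ioo a b)) := measure_mono hsub
    _ ≤ _ := volume_image_le hg _

variable {X : Type*} [NormedAddCommGroup X]

/-- The dyadic annulus. -/
def ann (X : Type*) [NormedAddCommGroup X] (R : ℝ) (k : ℕ) : Set X :=
  {x | 2 ^ k * R < ‖x‖ ∧ ‖x‖ < 2 ^ (k + 1) * R}

lemma ann_open (R : ℝ) (k : ℕ) : IsOpen (ann X R k) :=
  (isOpen_lt continuous_const continuous_norm).inter (isOpen_lt continuous_norm continuous_const)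

/-- The barrier density. -/
noncomputable def barrier (X : Type*) [NormedAddCommGroup X] (R : ℝ) (m : ℕ) (x : X) : ℝ≥0∞ :=
  ∑ k ∈ Finset.range m, (ann X R k).indicator
    (fun _ => ENNReal.ofReal (1 / (m * (2 ^ k * R)))) x

lemma barrier_lsc (R : ℝ) (m : ℕ) : LowerSemicontinuous (barrier X R m) := by
  unfold barrier
  apply lowerSemicontinuous_sum
  intro k _
  exact (ann_open R k).lowerSemicontinuous_indicator bot_le

lemma barrier_cross {R : ℝ} (hR : 0 < R) {m : ℕ} (hm : 0 < m) {c : ℝ → X}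
    (hc : LipschitzWith 1 c) {T : ℝ} (hT : 0 ≤ T) (h0 : ‖c 0‖ < R)
    (hb : 2 ^ m * R ≤ ‖c T‖) : 1 ≤ ∫⁻ s in Icc 0 T, barrier X R m (c s) := by
  have hg : LipschitzWith 1 (fun s => ‖c s‖) := by
    have : LipschitzWith 1 ((fun x : X => ‖x‖) ∘ c) := by
      simpa using lipschitzWith_one_norm.comp hc
    exact this
  have hmeas : ∀ k, MeasurableSet {s | c s ∈ ann X R k} := fun k =>
    ((ann_open R k).preimage hc.continuous).measurableSet
  have e1 : ∫⁻ s in Icc 0 T, barrier X R m (c s)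
      = ∑ k ∈ Finset.range m, ∫⁻ s in Icc 0 T, {s | c s ∈ ann X R k}.indicator
          (fun _ => ENNReal.ofReal (1 / (m * (2 ^ k * R)))) s := by
    rw [← lintegral_finsetSum]
    · rfl
    · intro k _
      exact measurable_const.indicator (hmeas k)
  rw [e1]
  have e2 : ∀ k ∈ Finset.range m, ENNReal.ofReal (1 / m)
      ≤ ∫⁻ s in Icc 0 T, {s | c s ∈ ann X R k}.indicator
          (fun _ => ENNReal.ofReal (1 / (m * (2 ^ k * R)))) s := by
    intro k hk
    rw [lintegral_indicator (hmeas k), setLIntegral_const, Measure.restrict_apply (hmeas k)]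
    have h1 : {s | c s ∈ ann X R k} ∩ Icc 0 T
        = Icc 0 T ∩ (fun s => ‖c s‖) ⁻¹' Ioo (2 ^ k * R) (2 ^ (k + 1) * R) := by
      rw [inter_comm]; rfl
    rw [h1]
    have hk' : k + 1 ≤ m := Finset.mem_range.1 hk
    have hp : (2 : ℝ) ^ (k + 1) ≤ 2 ^ m := pow_le_pow_right₀ (by norm_num) hk'
    have hp1 : (1 : ℝ) ≤ 2 ^ k := one_le_pow₀ (by norm_num)
    have h2 := crossing hg (a := 2 ^ k * R) (b := 2 ^ (k + 1) * R) hT
      (by nlinarith) (le_trans (by gcongr) hb)
    refine le_trans ?_ (mul_le_mul_right h2 _)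
    rw [← ENNReal.ofReal_mul (by positivity)]
    apply ENNReal.ofReal_le_ofReal
    apply le_of_eq
    have hm' : (m : ℝ) ≠ 0 := by positivity
    field_simp
    ring
  calc (1 : ℝ≥0∞) = ∑ _k ∈ Finset.range m, ENNReal.ofReal (1 / m) := by
        rw [Finset.sum_const, Finset.card_range, nsmul_eq_mul,
          ← ENNReal.ofReal_natCast, ← ENNReal.ofReal_mul (by positivity)]
        rw [mul_one_div_cancel (by positivity), ENNReal.ofReal_one]
    _ ≤ _ := Finset.sum_le_sum e2

variable [NormedSpace ℝ X] [FiniteDimensional ℝ X] [MeasureSpace X] [BorelSpace X]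
  [(volume : Measure X).IsAddHaarMeasure]

lemma barrier_energy {R : ℝ} (hR : 0 < R) {m n : ℕ} (hm : 0 < m) (hn : 0 < n)
    (hdim : finrank ℝ X = n) :
    ∫⁻ x, (barrier X R m x) ^ n
      ≤ m * (ENNReal.ofReal ((2 / m) ^ n) * volume (Metric.ball (0 : X) 1)) := by
  have hpt : ∀ x, (barrier X R m x) ^ n = ∑ k ∈ Finset.range m, (ann X R k).indicator
      (fun _ => (ENNReal.ofReal (1 / (m * (2 ^ k * R)))) ^ n) x := by
    intro x
    unfold barrier
    by_cases hx : ∃ j ∈ Finset.range m, x ∈ ann X R j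
    · obtain ⟨j, hj, hxj⟩ := hx
      have huniq : ∀ k ∈ Finset.range m, k ≠ j → x ∉ ann X R k := by
        intro k _ hkj hxk
        rcases lt_or_gt_of_ne hkj with h | h
        · have : (2 : ℝ) ^ (k + 1) ≤ 2 ^ j := pow_le_pow_right₀ (by norm_num) h
          have h1 := hxk.2
          have h2 := hxj.1
          nlinarith
        · have : (2 : ℝ) ^ (j + 1) ≤ 2 ^ k := pow_le_pow_right₀ (by norm_num) h
          have h1 := hxj.2
          have h2 := hxk.1
          nlinarith
      rw [Finset.sum_eq_single j, Finset.sum_eq_single j, indicator_of_mem hxj,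
        indicator_of_mem hxj]
      · intro k hk hkj; exact indicator_of_notMem (huniq k hk hkj) _
      · intro h; exact absurd hj h
      · intro k hk hkj; exact indicator_of_notMem (huniq k hk hkj) _
      · intro h; exact absurd hj h
    · push Not at hx
      rw [Finset.sum_eq_zero fun k hk => indicator_of_notMem (hx k hk) _,
        Finset.sum_eq_zero fun k hk => indicator_of_notMem (hx k hk) _, zero_pow hn.ne']
  simp_rw [hpt]
  rw [lintegral_finsetSum _ fun k _ => measurable_const.indicator (ann_open R k).measurableSet]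
  calc ∑ k ∈ Finset.range m, ∫⁻ x, (ann X R k).indicator
        (fun _ => (ENNReal.ofReal (1 / (m * (2 ^ k * R)))) ^ n) x
      ≤ ∑ _k ∈ Finset.range m,
        ENNReal.ofReal ((2 / m) ^ n) * volume (Metric.ball (0 : X) 1) := by
        refine Finset.sum_le_sum fun k _ => ?_
        rw [lintegral_indicator (ann_open R k).measurableSet, setLIntegral_const]
        have h1 : ann X R k ⊆ Metric.ball 0 (2 ^ (k + 1) * R) := by
          intro x hx
          rw [mem_ball_zero_iff]; exact hx.2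
        have h2 := measure_mono (μ := (volume : Measure X)) h1
        rw [Measure.addHaar_ball_of_pos _ _ (by positivity), hdim] at h2
        refine (mul_le_mul_right h2 _).trans (le_of_eq ?_)
        rw [← mul_assoc, ← ENNReal.ofReal_pow (by positivity), ← ENNReal.ofReal_mul (by positivity)]
        congr 2
        rw [← mul_pow]
        congr 1
        have hm' : (m : ℝ) ≠ 0 := by positivity
        field_simp
        ring
    _ = _ := by rw [Finset.sum_const, Finset.card_range, nsmul_eq_mul]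

/-- The `L^n` norm of a density. -/
noncomputable def nrm (n : ℕ) (f : X → ℝ≥0∞) : ℝ≥0∞ := (∫⁻ x, f x ^ (n : ℝ)) ^ (1 / (n : ℝ))

omit [FiniteDimensional ℝ X] [(volume : Measure X).IsAddHaarMeasure] [NormedSpace ℝ X]
  [BorelSpace X] in
set_option linter.unusedSectionVars false in
lemma nrm_add {n : ℕ} (hn : 0 < n) {f g : X → ℝ≥0∞} (hf : Measurable f) (hg : Measurable g) :
    nrm n (fun x => f x + g x) ≤ nrm n f + nrm n g :=
  ENNReal.lintegral_Lp_add_le hf.aemeasurable hg.aemeasurable (by exact_mod_cast hn)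

lemma exists_barrier {R : ℝ} (hR : 0 < R) {n : ℕ} (hn : 2 ≤ n) (hdim : finrank ℝ X = n)
    {η : ℝ≥0∞} (hη : η ≠ 0) : ∃ m : ℕ, 0 < m ∧ nrm n (barrier X R m) ≤ η := by
  have hω : volume (Metric.ball (0 : X) 1) ≠ ∞ := measure_ball_lt_top.ne
  have hn' : (n : ℝ) ≠ 0 := by positivity
  -- energies tend to zero
  have hlim : Tendsto (fun m : ℕ => (m : ℝ≥0∞) * (ENNReal.ofReal ((2 / m) ^ n)
      * volume (Metric.ball (0 : X) 1))) atTop (𝓝 0) := by
    have h1 : Tendsto (fun m : ℕ => ENNReal.ofReal (m * (2 / m) ^ n)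
        * volume (Metric.ball (0 : X) 1)) atTop (𝓝 (ENNReal.ofReal 0
        * volume (Metric.ball (0 : X) 1))) := by
      apply ENNReal.Tendsto.mul_const _ (Or.inr hω)
      apply ENNReal.tendsto_ofReal
      have h2 : Tendsto (fun m : ℕ => (2 : ℝ) ^ n * (1 / (m : ℝ)) ^ (n - 1)) atTop (𝓝 0) := by
        have h3 := (tendsto_one_div_atTop_nhds_zero_nat (𝕜 := ℝ)).pow (n - 1)
        rw [zero_pow (by omega)] at h3
        simpa using h3.const_mul ((2 : ℝ) ^ n)
      refine h2.congr' ?_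
      filter_upwards [eventually_gt_atTop 0] with m hm
      have hm' : (m : ℝ) ≠ 0 := by positivity
      obtain ⟨k, rfl⟩ : ∃ k, n = k + 1 := ⟨n - 1, by omega⟩
      rw [Nat.add_sub_cancel, div_pow, div_pow, one_pow]
      field_simp
      ring
    rw [ENNReal.ofReal_zero, zero_mul] at h1
    refine h1.congr fun m => ?_
    rw [ENNReal.ofReal_mul (by positivity), ENNReal.ofReal_natCast, mul_assoc]
  have hlim2 := (ENNReal.continuous_rpow_const (y := 1 / (n : ℝ))).tendsto 0 |>.comp hlim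
  rw [ENNReal.zero_rpow_of_pos (by positivity)] at hlim2
  have h4 := (hlim2.eventually (gt_mem_nhds (pos_iff_ne_zero.2 hη))).and (eventually_gt_atTop 0)
  obtain ⟨m, hm1, hm2⟩ := h4.exists
  refine ⟨m, hm2, ?_⟩
  refine le_trans ?_ hm1.le
  unfold nrm
  simp only [Function.comp]
  apply ENNReal.rpow_le_rpow _ (by positivity)
  simp only [ENNReal.rpow_natCast]
  exact barrier_energy hR hm2 (by omega) hdim

/-- Approximation by lower semicontinuous densities with property (P). -/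
theorem exists_approx {n : ℕ} (hn : 2 ≤ n) (hdim : finrank ℝ X = n) {A : Set X}
    (hA : IsCompact A) {ρ : X → ℝ≥0∞} (hρ : Measurable ρ) (hfin : nrm n ρ ≠ ∞)
    {η : ℝ≥0∞} (hη : η ≠ 0) :
    ∃ ρ' : X → ℝ≥0∞, (∀ x, ρ x ≤ ρ' x) ∧ LowerSemicontinuous ρ' ∧ HasP ρ' A ∧
      nrm n ρ' ≤ nrm n ρ + η := by
  have hn0 : 0 < n := by omega
  have hn' : (0 : ℝ) < n := by exact_mod_cast hn0
  wlog hηt : η ≠ ∞ generalizing η
  · obtain ⟨ρ', h1, h2, h3, h4⟩ := this (η := 1) one_ne_zero ENNReal.one_ne_top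
    push Not at hηt
    exact ⟨ρ', h1, h2, h3, h4.trans (by rw [hηt, add_top]; exact le_top)⟩
  set η3 := η / 3 with hη3
  have hη30 : η3 ≠ 0 := by
    rw [hη3]; exact (ENNReal.div_pos hη (by norm_num)).ne'
  -- the lower semicontinuous majorant
  have hstep1 : ∃ ρ1 : X → ℝ≥0∞, (∀ x, ρ x ≤ ρ1 x) ∧ LowerSemicontinuous ρ1 ∧
      nrm n ρ1 ≤ nrm n ρ + η3 := by
    have hI : ∫⁻ x, ρ x ^ (n : ℝ) ≠ ∞ := by
      intro h
      apply hfin
      rw [nrm, h, ENNReal.top_rpow_of_pos (by positivity)]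
    have hlt : ∫⁻ x, ρ x ^ (n : ℝ) < (nrm n ρ + η3) ^ (n : ℝ) := by
      have h1 : ∫⁻ x, ρ x ^ (n : ℝ) = (nrm n ρ) ^ (n : ℝ) := by
        rw [nrm, ← ENNReal.rpow_mul, one_div_mul_cancel hn'.ne', ENNReal.rpow_one]
      rw [h1]
      exact ENNReal.rpow_lt_rpow (ENNReal.lt_add_right hfin hη30) hn'
    obtain ⟨b, hb1, hb2⟩ := exists_between hlt
    have hε : b - ∫⁻ x, ρ x ^ (n : ℝ) ≠ 0 := (tsub_pos_of_lt hb1).ne'
    obtain ⟨g, hg1, hg2, hg3⟩ := exists_le_lowerSemicontinuous_lintegral_ge (μ := volume)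
      (fun x => ρ x ^ (n : ℝ)) (hρ.pow_const _) hε
    refine ⟨fun x => g x ^ (1 / (n : ℝ)), ?_, ?_, ?_⟩
    · intro x
      have := ENNReal.rpow_le_rpow (hg1 x) (z := 1 / (n : ℝ)) (by positivity)
      rwa [← ENNReal.rpow_mul, mul_one_div_cancel hn'.ne', ENNReal.rpow_one] at this
    · exact (ENNReal.continuous_rpow_const (y := 1 / (n : ℝ))).comp_lowerSemicontinuous hg2
        (ENNReal.monotone_rpow_of_nonneg (by positivity))
    · unfold nrm
      have h1 : ∀ x, (g x ^ (1 / (n : ℝ))) ^ (n : ℝ) = g x := by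
        intro x
        rw [← ENNReal.rpow_mul, one_div_mul_cancel hn'.ne', ENNReal.rpow_one]
      simp_rw [h1]
      have h2 : ∫⁻ x, g x ≤ (nrm n ρ + η3) ^ (n : ℝ) := by
        refine hg3.trans ?_
        rw [add_tsub_cancel_of_le hb1.le]
        exact hb2.le
      have h3 := ENNReal.rpow_le_rpow h2 (z := 1 / (n : ℝ)) (by positivity)
      rwa [← ENNReal.rpow_mul, mul_one_div_cancel hn'.ne', ENNReal.rpow_one] at h3
  obtain ⟨ρ1, h11, h12, h13⟩ := hstep1
  obtain ⟨R, hR0, hRA⟩ : ∃ R : ℝ, 0 < R ∧ A ⊆ Metric.ball 0 R := by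
    obtain ⟨R, hR⟩ := hA.isBounded.subset_ball 0
    exact ⟨max R 1, by positivity, hR.trans (Metric.ball_subset_ball (le_max_left _ _))⟩
  obtain ⟨m, hm0, hm⟩ := exists_barrier (X := X) hR0 hn hdim hη30
  -- small constant on a ball
  set D : Set X := Metric.ball 0 (2 ^ m * R) with hD
  have hDo : IsOpen D := Metric.isOpen_ball
  have hvD : volume D ≠ ∞ := measure_ball_lt_top.ne
  obtain ⟨δ, hδ0, hδ⟩ : ∃ δ : ℝ≥0, 0 < δ ∧
      nrm n (D.indicator (fun _ => (δ : ℝ≥0∞))) ≤ η3 := by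
    have hcomp : ∀ δ : ℝ≥0, nrm n (D.indicator (fun _ => (δ : ℝ≥0∞)))
        = δ * (volume D) ^ (1 / (n : ℝ)) := by
      intro δ
      have h1 : ∀ x, (D.indicator (fun _ => (δ : ℝ≥0∞)) x) ^ (n : ℝ)
          = D.indicator (fun _ => (δ : ℝ≥0∞) ^ (n : ℝ)) x := by
        intro x
        by_cases hx : x ∈ D
        · rw [indicator_of_mem hx, indicator_of_mem hx]
        · rw [indicator_of_notMem hx, indicator_of_notMem hx, ENNReal.zero_rpow_of_pos hn']
      unfold nrm
      simp_rw [h1]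
      rw [lintegral_indicator hDo.measurableSet, setLIntegral_const,
        ENNReal.mul_rpow_of_nonneg _ _ (by positivity), ← ENNReal.rpow_mul,
        mul_one_div_cancel hn'.ne', ENNReal.rpow_one]
    have hlim : Tendsto (fun δ : ℝ≥0 => (δ : ℝ≥0∞) * (volume D) ^ (1 / (n : ℝ))) (𝓝[>] 0)
        (𝓝 (((0 : ℝ≥0) : ℝ≥0∞) * (volume D) ^ (1 / (n : ℝ)))) := by
      apply ENNReal.Tendsto.mul_const
      · exact (ENNReal.continuous_coe.tendsto 0).mono_left nhdsWithin_le_nhds
      · right; exact ENNReal.rpow_ne_top_of_nonneg (by positivity) hvD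
    rw [ENNReal.coe_zero, zero_mul] at hlim
    obtain ⟨δ, h1, h2⟩ := ((hlim.eventually (gt_mem_nhds (pos_iff_ne_zero.2 hη30))).and
      self_mem_nhdsWithin).exists
    exact ⟨δ, h2, by rw [hcomp]; exact h1.le⟩
  refine ⟨fun x => (ρ1 x + barrier X R m x) + D.indicator (fun _ => (δ : ℝ≥0∞)) x, ?_, ?_, ?_, ?_⟩
  · intro x
    exact ((h11 x).trans (le_add_of_nonneg_right bot_le)).trans (le_add_of_nonneg_right bot_le)
  · exact (h12.add (barrier_lsc R m)).add (hDo.lowerSemicontinuous_indicator bot_le)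
  · refine ⟨Metric.closedBall 0 (2 ^ m * R), 1 / (δ : ℝ), isCompact_closedBall _ _, ?_⟩
    intro L c hL hc h0 hlt
    have hstay : ∀ s ∈ Icc 0 L, c s ∈ D := by
      intro s hs
      by_contra hcon
      rw [hD, mem_ball_zero_iff, not_lt] at hcon
      have h1 := barrier_cross hR0 hm0 hc hs.1 (by
        have := hRA h0; rwa [mem_ball_zero_iff] at this) hcon
      have h2 : ∫⁻ s in Icc 0 s, barrier X R m (c s) ≤ ∫⁻ s in Icc 0 L,
          ((ρ1 (c s) + barrier X R m (c s)) + D.indicator (fun _ => (δ : ℝ≥0∞)) (c s)) := by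
        refine (lintegral_mono_set (Icc_subset_Icc le_rfl hs.2)).trans ?_
        apply lintegral_mono
        intro t
        exact (le_add_of_nonneg_left bot_le).trans (le_add_of_nonneg_right bot_le)
      exact absurd (h1.trans h2) (not_le.2 hlt)
    refine ⟨fun s hs => Metric.ball_subset_closedBall (hstay s hs), ?_⟩
    have h3 : ∫⁻ _s in Icc 0 L, (δ : ℝ≥0∞) ≤ ∫⁻ s in Icc 0 L,
          ((ρ1 (c s) + barrier X R m (c s)) + D.indicator (fun _ => (δ : ℝ≥0∞)) (c s)) := by
      apply setLIntegral_mono' measurableSet_Icc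
      intro s hs
      rw [indicator_of_mem (hstay s hs)]
      exact le_add_of_nonneg_left bot_le
    rw [setLIntegral_const, Real.volume_Icc, sub_zero] at h3
    have h4 := h3.trans hlt.le
    rw [← ENNReal.ofReal_coe_nnreal, ← ENNReal.ofReal_mul (by positivity),
      ← ENNReal.ofReal_one, ENNReal.ofReal_le_ofReal_iff zero_le_one] at h4
    rw [le_div_iff₀ (by positivity)]
    linarith
  · have hm1 : Measurable ρ1 := h12.measurable
    have hm2 : Measurable (barrier X R m) := (barrier_lsc R m).measurable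
    have hm3 : Measurable (D.indicator (fun _ => (δ : ℝ≥0∞))) :=
      measurable_const.indicator hDo.measurableSet
    calc nrm n (fun x => (ρ1 x + barrier X R m x) + D.indicator (fun _ => (δ : ℝ≥0∞)) x)
        ≤ nrm n (fun x => ρ1 x + barrier X R m x) + nrm n (D.indicator (fun _ => (δ : ℝ≥0∞))) :=
          nrm_add hn0 (hm1.add hm2) hm3
      _ ≤ (nrm n ρ1 + nrm n (barrier X R m)) + η3 := by
          gcongr
          exact nrm_add hn0 hm1 hm2
      _ ≤ (nrm n ρ + η3 + η3) + η3 := by gcongr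
      _ = nrm n ρ + η := by
          rw [add_assoc, add_assoc, ← add_assoc η3, ENNReal.add_thirds]

/-- The polarization inequality, for the modulus tested on Lipschitz curves. -/
theorem nrm_le_of_adm {n : ℕ} (hn : 2 ≤ n) (hdim : finrank ℝ X = n) {A F : Set X}
    (hA : IsCompact A) {r : X → X} {h : X → ℝ} (hrL : LipschitzWith 1 r)
    (hmp : MeasurePreserving r) (hhc : Continuous h)
    (hr0 : ∀ x, h x = 0 → r x = x) (hrr : ∀ x, r (r x) = x) (hh : ∀ x, h (r x) = - h x)
    (hA0 : ∀ x ∈ A, 0 < h x) (hF0 : ∀ x ∈ F, h x < 0) {M : ℝ≥0∞}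
    (hM : ∀ f : X → ℝ≥0∞, Measurable f → Adm f A F → M ≤ nrm n f)
    {ρ : X → ℝ≥0∞} (hρ : Measurable ρ) (hAdm : Adm ρ A (r ⁻¹' F)) : M ≤ nrm n ρ := by
  have hn0 : 0 < n := by omega
  have hn' : (0 : ℝ) < n := by exact_mod_cast hn0
  by_cases hfin : nrm n ρ = ∞
  · rw [hfin]; exact le_top
  -- first step: fixed approximation
  have hstep : ∀ η : ℝ≥0∞, η ≠ 0 → η ≠ ∞ → M ≤ nrm n ρ + η := by
    intro η hη hηt
    obtain ⟨ρ', h1, h2, h3, h4⟩ := exists_approx hn hdim hA hρ hfin hη
    have hAdm' : Adm ρ' A (r ⁻¹' F) := by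
      intro L c hL hc h0 hL1
      exact (hAdm L c hL hc h0 hL1).trans (lintegral_mono fun s => h1 _)
    have hfin' : nrm n ρ' ≠ ∞ := ne_top_of_le_ne_top (ENNReal.add_ne_top.2 ⟨hfin, hηt⟩) h4
    have hr' : Continuous r := hrL.continuous
    have hpm := polρ_meas (r := r) (h := h) h2 hA.isClosed h3 hr' hhc
    have hρ'm : Measurable ρ' := h2.measurable
    have hρ'r : Measurable (fun x => ρ' (r x)) := hρ'm.comp hr'.measurable
    have hsum : Measurable (fun x => ρ' x + ρ' (r x)) := hρ'm.add hρ'r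
    have hsumε : ∀ ε : ℝ≥0∞, Measurable (fun x => ε * (ρ' x + ρ' (r x))) :=
      fun ε => hsum.const_mul ε
    have e1 : nrm n (polρ ρ' A r h) = nrm n ρ' := by
      unfold nrm
      rw [polρ_energy h2 hA.isClosed h3 hr' hhc hmp hr0 hrr hh (fun y => y ^ (n : ℝ))
        (measurable_id.pow_const _)]
    have e2 : nrm n (fun x => ρ' (r x)) = nrm n ρ' := by
      unfold nrm
      rw [hmp.lintegral_comp (f := fun x => ρ' x ^ (n : ℝ)) (hρ'm.pow_const _)]
    have hbound : ∀ ε : ℝ≥0∞, ε ≠ 0 → M ≤ nrm n ρ' + ε * (nrm n ρ' + nrm n ρ') := by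
      intro ε hε
      have hadm := swap_adm h2 hrL hhc hr0 hrr hA0 hF0 hAdm' hε
      have hmeas : Measurable (fun x => polρ ρ' A r h x + ε * (ρ' x + ρ' (r x))) :=
        hpm.add (hsumε ε)
      refine (hM _ hmeas hadm).trans ?_
      refine (nrm_add hn0 hpm (hsumε ε)).trans ?_
      rw [e1]
      gcongr
      have e3 : nrm n (fun x => ε * (ρ' x + ρ' (r x))) = ε * nrm n (fun x => ρ' x + ρ' (r x)) := by
        unfold nrm
        have : ∀ x, (ε * (ρ' x + ρ' (r x))) ^ (n : ℝ) = ε ^ (n : ℝ) * (ρ' x + ρ' (r x)) ^ (n : ℝ) :=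
          fun x => ENNReal.mul_rpow_of_nonneg _ _ hn'.le
        simp_rw [this]
        rw [lintegral_const_mul _ (hsum.pow_const _),
          ENNReal.mul_rpow_of_nonneg _ _ (by positivity), ← ENNReal.rpow_mul,
          mul_one_div_cancel hn'.ne', ENNReal.rpow_one]
      rw [e3]
      gcongr
      refine (nrm_add hn0 hρ'm hρ'r).trans ?_
      rw [e2]
    have hlim : Tendsto (fun ε : ℝ≥0 => nrm n ρ' + (ε : ℝ≥0∞) * (nrm n ρ' + nrm n ρ')) (𝓝[>] 0)
        (𝓝 (nrm n ρ' + ((0 : ℝ≥0) : ℝ≥0∞) * (nrm n ρ' + nrm n ρ'))) := by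
      apply Tendsto.add tendsto_const_nhds
      apply ENNReal.Tendsto.mul_const
      · exact (ENNReal.continuous_coe.tendsto 0).mono_left nhdsWithin_le_nhds
      · right; exact ENNReal.add_ne_top.2 ⟨hfin', hfin'⟩
    rw [ENNReal.coe_zero, zero_mul, add_zero] at hlim
    have hle : M ≤ nrm n ρ' := by
      refine ge_of_tendsto hlim ?_
      filter_upwards [self_mem_nhdsWithin] with ε hε
      exact hbound ε (by exact_mod_cast (ne_of_gt hε))
    exact hle.trans h4
  apply ENNReal.le_of_forall_pos_le_add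
  intro ε hε _
  exact hstep ε (by exact_mod_cast hε.ne') ENNReal.coe_ne_top

end Pool.Agent.R252.Pol
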