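import Mathlib
import Pool.Agent.R252.Pol.Approx

/-!
Line integrals along rectifiable curves (through the natural parametrization by arc length) and
comparison with Lipschitz curves.
-/

set_option autoImplicit false

open MeasureTheory Set Filter Topology Module
open scoped ENNReal NNReal Interval MeasureTheory

namespace Pool.Agent.R252.Pol

variable {X : Type*} [MetricSpace X]

/-- The line integral `∫_γ ρ ds` of a density `ρ` along a rectifiable curve `γ : [a, b] → X`, by
definition the integral of `ρ` along the parametrization of `γ` by arc length, over `[0, ℓ(γ)]`.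
Here `variationOnFromTo γ [a, b] a t` is the length of `γ` on `[a, t]` and
`naturalParameterization` is Mathlib's parametrization by arc length. -/
noncomputable def lineIntegral (ρ : X → ℝ≥0∞) (γ : ℝ → X) (a b : ℝ) : ℝ≥0∞ :=
  ∫⁻ s in Icc 0 (variationOnFromTo γ (Icc a b) a b), ρ (naturalParameterization γ (Icc a b) a s)

/-- `ρ` is admissible for the family of curves joining `A` and `B`: `∫_γ ρ ds ≥ 1` for every
rectifiable curve `γ : [a, b] → X` with `γ(a) ∈ A`, `γ(b) ∈ B`. -/
def Admissible (ρ : X → ℝ≥0∞) (A B : Set X) : Prop :=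
  ∀ (a b : ℝ) (γ : ℝ → X), a ≤ b → ContinuousOn γ (Icc a b) → BoundedVariationOn γ (Icc a b) →
    γ a ∈ A → γ b ∈ B → 1 ≤ lineIntegral ρ γ a b

lemma continuousOn_length {γ : ℝ → X} {a b : ℝ} (hab : a ≤ b) (hc : ContinuousOn γ (Icc a b))
    (hv : BoundedVariationOn γ (Icc a b)) :
    ContinuousOn (variationOnFromTo γ (Icc a b) a) (Icc a b) := by
  intro x hx
  have hf := hv.locallyBoundedVariationOn
  have ha : a ∈ Icc a b := left_mem_Icc.2 hab
  have h1 : Tendsto (variationOnFromTo γ (Icc a b) a) (𝓝[Icc a b ∩ Iio x] x)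
      (𝓝 (variationOnFromTo γ (Icc a b) a x)) := by
    have := variationOnFromTo.tendsto_left ha hx hf (l := γ x)
      ((hc x hx).mono_left (nhdsWithin_mono _ inter_subset_left))
    simpa using this
  have h2 : Tendsto (variationOnFromTo γ (Icc a b) a) (𝓝[Icc a b ∩ Ioi x] x)
      (𝓝 (variationOnFromTo γ (Icc a b) a x)) := by
    have := variationOnFromTo.tendsto_right ha hx hf (l := γ x)
      ((hc x hx).mono_left (nhdsWithin_mono _ inter_subset_left))
    simpa using this
  have hs : Icc a b ⊆ (Icc a b ∩ Iio x) ∪ (Icc a b ∩ Ioi x) ∪ {x} := by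
    intro y hy
    rcases lt_trichotomy y x with h | h | h
    · exact Or.inl (Or.inl ⟨hy, h⟩)
    · exact Or.inr h
    · exact Or.inl (Or.inr ⟨hy, h⟩)
  refine Tendsto.mono_left ?_ (nhdsWithin_mono _ hs)
  rw [nhdsWithin_union, nhdsWithin_union, nhdsWithin_singleton]
  exact (h1.sup h2).sup (tendsto_pure_nhds _ _)

/-- The arc length parametrization, extended to a `1`-Lipschitz curve on `ℝ`. -/
lemma natural_curve {γ : ℝ → X} {a b : ℝ} (hab : a ≤ b) (hc : ContinuousOn γ (Icc a b))
    (hv : BoundedVariationOn γ (Icc a b)) (hℓ : 0 ≤ variationOnFromTo γ (Icc a b) a b) :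
    LipschitzWith 1 (fun s => naturalParameterization γ (Icc a b) a
        (projIcc 0 (variationOnFromTo γ (Icc a b) a b) hℓ s)) ∧
      ∀ t ∈ Icc a b, naturalParameterization γ (Icc a b) a
        (variationOnFromTo γ (Icc a b) a t) = γ t := by
  have hf := hv.locallyBoundedVariationOn
  have ha : a ∈ Icc a b := left_mem_Icc.2 hab
  have hb : b ∈ Icc a b := right_mem_Icc.2 hab
  have himg : Icc 0 (variationOnFromTo γ (Icc a b) a b)
      ⊆ variationOnFromTo γ (Icc a b) a '' Icc a b := by
    have := intermediate_value_Icc hab (continuousOn_length hab hc hv)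
    rwa [variationOnFromTo.self] at this
  have hus := has_unit_speed_naturalParameterization γ hf ha
  refine ⟨?_, ?_⟩
  · have hlip : LipschitzOnWith 1 (naturalParameterization γ (Icc a b) a)
        (variationOnFromTo γ (Icc a b) a '' Icc a b) := by
      intro x hx y hy
      wlog hxy : x ≤ y generalizing x y
      · rw [edist_comm, edist_comm x y]
        exact this hy hx (le_of_not_ge hxy)
      have h1 := hus hx hy
      have h2 := eVariationOn.edist_le (naturalParameterization γ (Icc a b) a)
        (s := (variationOnFromTo γ (Icc a b) a '' Icc a b) ∩ Icc x y)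
        ⟨hx, left_mem_Icc.2 hxy⟩ ⟨hy, right_mem_Icc.2 hxy⟩
      rw [h1] at h2
      refine h2.trans (le_of_eq ?_)
      rw [NNReal.coe_one, one_mul, ENNReal.coe_one, one_mul, edist_comm, edist_dist,
        Real.dist_eq, abs_of_nonneg (sub_nonneg.2 hxy)]
    apply LipschitzWith.of_dist_le_mul
    intro s t
    have h1 := hlip.dist_le_mul _ (himg (projIcc 0 _ hℓ s).2) _ (himg (projIcc 0 _ hℓ t).2)
    refine h1.trans ?_
    rw [NNReal.coe_one, one_mul, one_mul]
    have h2 := (LipschitzWith.projIcc hℓ).dist_le_mul s t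
    rw [NNReal.coe_one, one_mul] at h2
    exact h2
  · intro t ht
    exact edist_eq_zero.1 (edist_naturalParameterization_eq_zero hf ha ht)

lemma adm_to_admissible {ρ : X → ℝ≥0∞} {A B : Set X} (h : Adm ρ A B) : Admissible ρ A B := by
  intro a b γ hab hc hv hA hB
  have hℓ : 0 ≤ variationOnFromTo γ (Icc a b) a b := variationOnFromTo.nonneg_of_le _ _ hab
  obtain ⟨h1, h2⟩ := natural_curve hab hc hv hℓ
  have h3 := h _ _ hℓ h1 (by
    rw [projIcc_left]
    have := h2 a (left_mem_Icc.2 hab)
    rw [variationOnFromTo.self] at this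
    change naturalParameterization γ (Icc a b) a 0 ∈ A
    rw [this]; exact hA) (by
    rw [projIcc_right]
    have := h2 b (right_mem_Icc.2 hab)
    change naturalParameterization γ (Icc a b) a (variationOnFromTo γ (Icc a b) a b) ∈ B
    rw [this]; exact hB)
  refine h3.trans (le_of_eq ?_)
  refine setLIntegral_congr_fun measurableSet_Icc fun s hs => ?_
  simp only [projIcc_of_mem hℓ hs]

lemma admissible_to_adm [MeasurableSpace X] [BorelSpace X] {ρ : X → ℝ≥0∞} (hρ : Measurable ρ)
    {A B : Set X} (h : Admissible ρ A B) : Adm ρ A B := by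
  intro L c hL hc hA hB
  have hv : BoundedVariationOn c (Icc 0 L) := by
    have h1 := hc.comp_boundedVariationOn (BoundedVariationOn.id_Icc 0 L)
    simpa using h1
  have hcc : ContinuousOn c (Icc 0 L) := hc.continuous.continuousOn
  have hline := h 0 L c hL hcc hv hA hB
  refine hline.trans ?_
  set ℓ : ℝ → ℝ := variationOnFromTo c (Icc 0 L) 0 with hℓdef
  have hℓ : 0 ≤ ℓ L := variationOnFromTo.nonneg_of_le _ _ hL
  obtain ⟨h1, h2⟩ := natural_curve hL hcc hv hℓ
  have hf := hv.locallyBoundedVariationOn
  have h0 : (0 : ℝ) ∈ Icc 0 L := left_mem_Icc.2 hL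
  -- the length function is 1-Lipschitz
  have hℓlip : ∀ s ∈ Icc 0 L, ∀ t ∈ Icc 0 L, s ≤ t → dist (ℓ s) (ℓ t) ≤ dist s t := by
    intro s hs t ht hst
    have e1 : ℓ t - ℓ s = variationOnFromTo c (Icc 0 L) s t := by
      have := variationOnFromTo.add hf h0 hs ht
      simp only [hℓdef]; linarith
    have e2 : eVariationOn c (Icc 0 L ∩ Icc s t) ≤ ENNReal.ofReal (t - s) := by
      have h3 := (hc.lipschitzOnWith (s := univ)).comp_eVariationOn_le (g := id)
        (s := Icc s t) (mapsTo_univ _ _)
      rw [Function.comp_id, eVariationOn_id_Icc, ENNReal.coe_one, one_mul] at h3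
      exact (eVariationOn.mono _ inter_subset_right).trans h3
    rw [dist_comm, Real.dist_eq, dist_comm, Real.dist_eq, e1,
      abs_of_nonneg (variationOnFromTo.nonneg_of_le _ _ hst), abs_of_nonneg (sub_nonneg.2 hst),
      variationOnFromTo.eq_of_le _ _ hst]
    exact ENNReal.toReal_le_of_le_ofReal (sub_nonneg.2 hst) e2
  set V : ℝ → ℝ := fun t => ℓ (projIcc 0 L hL t) with hV
  have hVlip : LipschitzWith 1 V := by
    apply LipschitzWith.of_dist_le_mul
    intro s t
    rw [NNReal.coe_one, one_mul]
    have hp := (LipschitzWith.projIcc hL).dist_le_mul s t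
    rw [NNReal.coe_one, one_mul] at hp
    refine le_trans ?_ hp
    rcases le_total (projIcc 0 L hL s : ℝ) (projIcc 0 L hL t : ℝ) with hle | hle
    · exact hℓlip _ (projIcc 0 L hL s).2 _ (projIcc 0 L hL t).2 hle
    · rw [dist_comm, dist_comm (projIcc 0 L hL s)]
      exact hℓlip _ (projIcc 0 L hL t).2 _ (projIcc 0 L hL s).2 hle
  have hV0 : V 0 = 0 := by
    simp only [hV, projIcc_left, hℓdef, variationOnFromTo.self]
  have hVL : V L = ℓ L := by simp only [hV, projIcc_right]
  -- comparison of measures
  have hmeas : (volume : Measure ℝ).restrict (Icc 0 (ℓ L))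
      ≤ ((volume : Measure ℝ).restrict (Icc 0 L)).map V := by
    rw [Measure.le_iff]
    intro S hS
    rw [Measure.restrict_apply hS, Measure.map_apply hVlip.continuous.measurable hS,
      Measure.restrict_apply (hVlip.continuous.measurable hS)]
    refine (measure_mono ?_).trans (volume_image_le hVlip (V ⁻¹' S ∩ Icc 0 L))
    rintro y ⟨hy, hy2⟩
    obtain ⟨t, ht, hty⟩ := intermediate_value_Icc hL hVlip.continuous.continuousOn
      (by rw [hV0, hVL]; exact hy2 : y ∈ Icc (V 0) (V L))
    exact ⟨t, ⟨by rw [mem_preimage, hty]; exact hy, ht⟩, hty⟩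
  set g : ℝ → ℝ≥0∞ := fun s => ρ (naturalParameterization c (Icc 0 L) 0 (projIcc 0 (ℓ L) hℓ s))
    with hg
  have hgm : Measurable g := hρ.comp h1.continuous.measurable
  calc lineIntegral ρ c 0 L = ∫⁻ s in Icc 0 (ℓ L), g s := by
        unfold lineIntegral
        refine setLIntegral_congr_fun measurableSet_Icc fun s hs => ?_
        simp only [hg, projIcc_of_mem hℓ hs]
    _ ≤ ∫⁻ s, g s ∂(((volume : Measure ℝ).restrict (Icc 0 L)).map V) :=
        lintegral_mono' hmeas le_rfl
    _ = ∫⁻ t in Icc 0 L, g (V t) := lintegral_map hgm hVlip.continuous.measurable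
    _ = ∫⁻ t in Icc 0 L, ρ (c t) := by
        refine setLIntegral_congr_fun measurableSet_Icc fun t ht => ?_
        have hVt : V t = ℓ t := by simp only [hV, projIcc_of_mem hL ht]
        have hmem : ℓ t ∈ Icc 0 (ℓ L) := by
          refine ⟨variationOnFromTo.nonneg_of_le _ _ ht.1, ?_⟩
          exact variationOnFromTo.monotoneOn hf h0 ht (right_mem_Icc.2 hL) ht.2
        simp only [hg, hVt, projIcc_of_mem hℓ hmem]
        congr 1
        exact h2 t ht

end Pool.Agent.R252.Pol
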